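import Pool.Agent.H477.O.Stm

/-!
# Project O: derivatives far to the right (S_OFAR)
-/

set_option autoImplicit false

open Complex Filter Topology Metric Set
open scoped ComplexConjugate

namespace Pool.Agent.H727.O

open Pool.Agent.H477.O

theorem diff_deriv {f : ℂ → ℂ} (hf : Differentiable ℂ f) : Differentiable ℂ (deriv f) :=
  fun z => (hf.analyticAt z).deriv.differentiableAt

theorem diff_iter {X : ℂ → ℂ} (hX : Differentiable ℂ X) (j : ℕ) :
    Differentiable ℂ (iteratedDeriv j X) := by
  induction j with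
  | zero => rw [iteratedDeriv_zero]; exact hX
  | succ j ih => rw [iteratedDeriv_succ]; exact diff_deriv ih

theorem OFAR_proof : S_OFAR := by
  intro a K j
  induction j with
  | zero =>
    intro A R
    refine ⟨|K| * (2 + |R| + |A| + R ^ 2 + A ^ 2) + 1, 1, ?_, le_rfl, ?_⟩
    · have h1 : 0 ≤ |K| * (2 + |R| + |A| + R ^ 2 + A ^ 2) := by positivity
      linarith
    · intro X M ℓ y hX hℓ z hz1 hz2 hz3
      rw [iteratedDeriv_zero]
      have ha := hX.ha
      have hK := hX.hK
      have hM := hX.hM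
      rw [Nat.cast_zero, add_zero] at hz1
      obtain ⟨u, hu⟩ : ∃ u : ℝ, u = z.re - 1 / 2 := ⟨_, rfl⟩
      obtain ⟨v, hv⟩ : ∃ v : ℝ, v = z.im - y := ⟨_, rfl⟩
      have hz : z = pt y u v := by rw [hu, hv]; exact pt_eq y z
      have hua : a ≤ u := by linarith
      have hu0 : 0 < u := lt_of_lt_of_le ha hua
      have huR : u ≤ R := by linarith
      have hvA : |v| ≤ A := by rw [hv]; exact hz3
      have hKK : |K| = K := abs_of_nonneg (by linarith)
      have hR0 : 0 ≤ R := by linarith
      have hA0 : 0 ≤ A := le_trans (abs_nonneg _) hvA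
      have hu2 : u ^ 2 ≤ R ^ 2 := by nlinarith
      have hv2 : v ^ 2 ≤ A ^ 2 := by
        rw [← sq_abs v]
        exact pow_le_pow_left₀ (abs_nonneg _) hvA 2
      have hb : K * (1 + u ^ 2 + v ^ 2) ≤ |K| * (2 + |R| + |A| + R ^ 2 + A ^ 2) + 1 := by
        rw [hKK]
        have h1 : 1 + u ^ 2 + v ^ 2 ≤ 2 + |R| + |A| + R ^ 2 + A ^ 2 := by
          have := abs_nonneg R
          have := abs_nonneg A
          linarith
        have h2 := mul_le_mul_of_nonneg_left h1 (show 0 ≤ K by linarith)
        linarith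
      have hlo := hX.lo u v hua
      have hup := hX.up u v
      rw [← hz] at hlo hup
      have hpos : 0 < M * Real.exp (ℓ * u - K * (1 + u ^ 2 + v ^ 2)) :=
        mul_pos hM (Real.exp_pos _)
      refine ⟨?_, ?_, ?_, ?_⟩
      · intro h
        rw [h, norm_zero] at hlo
        linarith
      · refine (hX.lg z (by linarith)).trans ?_
        rw [hKK]
        have h1 : |z.re| ≤ 1 / 2 + |R| := by
          have h2 : 0 ≤ z.re := by linarith
          rw [abs_of_nonneg h2, abs_of_nonneg hR0]
          linarith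
        have h2 : |z.im - y| ≤ |A| := hz3.trans (le_abs_self A)
        have h3 : 1 + |z.re| + |z.im - y| ≤ 2 + |R| + |A| + R ^ 2 + A ^ 2 := by
          have := sq_nonneg R
          have := sq_nonneg A
          linarith
        have h4 := mul_le_mul_of_nonneg_left h3 (show 0 ≤ K by linarith)
        linarith
      · refine le_trans (mul_le_mul_of_nonneg_left (Real.exp_le_exp.2 ?_) hM.le) hlo
        rw [← hu]
        linarith
      · rw [pow_zero, mul_one]
        refine hup.trans (mul_le_mul_of_nonneg_left (Real.exp_le_exp.2 ?_) hM.le)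
        rw [← hu, abs_of_pos hu0, max_eq_left hua]
        linarith
  | succ j ih =>
    intro A R
    obtain ⟨K1, ℓ1, hK1, hℓ1, hI⟩ := ih (A + 1) (R + 1)
    refine ⟨2 * K1, max ℓ1 (2 * K1 + 2), by linarith, le_trans hℓ1 (le_max_left _ _), ?_⟩
    intro X M ℓ y hX hℓ z hz1 hz2 hz3
    have hl1 : ℓ1 ≤ ℓ := (le_max_left _ _).trans hℓ
    have hl2 : 2 * K1 + 2 ≤ ℓ := (le_max_right _ _).trans hℓ
    have hM := hX.hM
    have hI' := hI X M ℓ y hX hl1
    push_cast at hz1
    rw [iteratedDeriv_succ]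
    set f : ℂ → ℂ := iteratedDeriv j X with hf
    have hfd : Differentiable ℂ f := diff_iter hX.diff j
    have hfd' : Differentiable ℂ (deriv f) := diff_deriv hfd
    -- the ball
    have hball : ∀ w ∈ closedBall z 1, f w ≠ 0 ∧ ‖logDeriv f w - ℓ‖ ≤ K1 := by
      intro w hw
      rw [mem_closedBall, dist_eq_norm] at hw
      have h1 : |w.re - z.re| ≤ 1 := by
        have h2 := Complex.abs_re_le_norm (w - z)
        rw [Complex.sub_re] at h2
        exact h2.trans hw
      have h2 : |w.im - z.im| ≤ 1 := by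
        have h3 := Complex.abs_im_le_norm (w - z)
        rw [Complex.sub_im] at h3
        exact h3.trans hw
      rw [abs_le] at h1 h2 hz3
      obtain ⟨h3, h4, -, -⟩ := hI' w (by linarith) (by linarith)
        (by rw [abs_le]; constructor <;> linarith)
      exact ⟨h3, h4⟩
    obtain ⟨hf0, hg, hlo, hup⟩ := hI' z (by linarith) (by linarith) (by linarith)
    -- Cauchy
    have hgd : ∀ w ∈ closedBall z 1, DifferentiableAt ℂ (fun w => logDeriv f w - (ℓ : ℂ)) w := by
      intro w hw
      have h1 : DifferentiableAt ℂ (fun w => deriv f w / f w) w :=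
        (hfd' w).div (hfd w) (hball w hw).1
      exact h1.sub_const _
    have hcau : ‖deriv (fun w => logDeriv f w - (ℓ : ℂ)) z‖ ≤ K1 := by
      have h1 : DiffContOnCl ℂ (fun w => logDeriv f w - (ℓ : ℂ)) (ball z 1) := by
        refine DifferentiableOn.diffContOnCl ?_
        rw [closure_ball z one_ne_zero]
        exact fun w hw => (hgd w hw).differentiableWithinAt
      have h2 := Complex.norm_deriv_le_of_forall_mem_sphere_norm_le (C := K1) one_pos h1
        (fun w hw => (hball w (sphere_subset_closedBall hw)).2)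
      rwa [div_one] at h2
    have hder : deriv (fun w => logDeriv f w - (ℓ : ℂ)) z =
        (deriv (deriv f) z * f z - deriv f z * deriv f z) / f z ^ 2 := by
      rw [deriv_sub_const]
      have h1 : logDeriv f = fun w => deriv f w / f w := by
        funext w
        rfl
      rw [h1]
      exact deriv_fun_div (hfd' z) (hfd z) hf0
    have hg1 : logDeriv f z = deriv f z / f z := rfl
    have hgn : ‖(ℓ : ℂ)‖ = ℓ := by
      rw [Complex.norm_real, Real.norm_of_nonneg (by linarith)]
    have hg2 : ℓ - K1 ≤ ‖logDeriv f z‖ := by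
      have h1 : ‖(ℓ : ℂ)‖ ≤ ‖logDeriv f z‖ + ‖logDeriv f z - ℓ‖ := by
        have h2 : (ℓ : ℂ) = logDeriv f z - (logDeriv f z - ℓ) := by ring
        calc ‖(ℓ : ℂ)‖ = ‖logDeriv f z - (logDeriv f z - ℓ)‖ := by rw [← h2]
          _ ≤ _ := norm_sub_le _ _
      rw [hgn] at h1
      linarith
    have hg3 : ‖logDeriv f z‖ ≤ 2 * ℓ := by
      have h1 : ‖logDeriv f z‖ ≤ ‖logDeriv f z - ℓ‖ + ‖(ℓ : ℂ)‖ := by
        have h2 : logDeriv f z = (logDeriv f z - ℓ) + ℓ := by ring
        calc ‖logDeriv f z‖ = ‖(logDeriv f z - ℓ) + ℓ‖ := by rw [← h2]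
          _ ≤ _ := norm_add_le _ _
      rw [hgn] at h1
      linarith
    have hg4 : 1 ≤ ‖logDeriv f z‖ := by linarith
    have hgne : logDeriv f z ≠ 0 := by
      intro h
      rw [h, norm_zero] at hg4
      linarith
    have hF1 : deriv f z = f z * logDeriv f z := by
      rw [hg1, mul_div_cancel₀ _ hf0]
    have hF1ne : deriv f z ≠ 0 := by
      rw [hF1]
      exact mul_ne_zero hf0 hgne
    have hF1n : ‖deriv f z‖ = ‖f z‖ * ‖logDeriv f z‖ := by rw [hF1, norm_mul]
    refine ⟨hF1ne, ?_, ?_, ?_⟩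
    · have h1 : logDeriv (deriv f) z - ℓ = (logDeriv f z - ℓ) +
          deriv (fun w => logDeriv f w - (ℓ : ℂ)) z / logDeriv f z := by
        rw [hder, logDeriv_apply, logDeriv_apply]
        field_simp
        ring
      rw [h1]
      have h2 : ‖deriv (fun w => logDeriv f w - (ℓ : ℂ)) z / logDeriv f z‖ ≤ K1 := by
        rw [norm_div]
        refine (div_le_self (norm_nonneg _) hg4).trans hcau
      exact (norm_add_le _ _).trans (by linarith)
    · rw [hF1n]
      have h1 : M * Real.exp (ℓ * (z.re - 1 / 2) - 2 * K1) ≤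
          M * Real.exp (ℓ * (z.re - 1 / 2) - K1) :=
        mul_le_mul_of_nonneg_left (Real.exp_le_exp.2 (by linarith)) hM.le
      calc M * Real.exp (ℓ * (z.re - 1 / 2) - 2 * K1) ≤ ‖f z‖ := h1.trans hlo
        _ = ‖f z‖ * 1 := (mul_one _).symm
        _ ≤ ‖f z‖ * ‖logDeriv f z‖ := mul_le_mul_of_nonneg_left hg4 (norm_nonneg _)
    · rw [hF1n]
      have hl0 : 0 ≤ 2 * ℓ := by linarith
      have h1 : Real.exp (ℓ * (z.re - 1 / 2) + K1) ≤ Real.exp (ℓ * (z.re - 1 / 2) + 2 * K1) :=
        Real.exp_le_exp.2 (by linarith)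
      calc ‖f z‖ * ‖logDeriv f z‖
          ≤ (M * (2 * ℓ) ^ j * Real.exp (ℓ * (z.re - 1 / 2) + K1)) * (2 * ℓ) :=
            mul_le_mul hup hg3 (norm_nonneg _) (by positivity)
        _ = M * (2 * ℓ) ^ (j + 1) * Real.exp (ℓ * (z.re - 1 / 2) + K1) := by
            rw [pow_succ]
            ring
        _ ≤ _ := mul_le_mul_of_nonneg_left h1 (by positivity)

end Pool.Agent.H727.O
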